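import Pool.Agent.Lib_helper31.LSP2.Bx

/-! LSP2, part O2: the cut around `u = 1`. -/

set_option autoImplicit false

namespace Pool.Agent.LSPO2

open Pool.Agent.LSPO (GOK)
open Finset

/-- block CUT (one g; the cut around u = 1) -/
theorem O2P.cut {G : ℝ → ℝ} {U c Y x V : ℝ} {N Q Dl R : ℕ} {P : Finset ℕ} {θ a : ℕ → ℝ}
    (h : O2P G U c Y x V N Q Dl R P θ a) {g : ℤ} (hg : g ≠ 0) {Q' : ℕ}
    (hQ' : 4 * (x * Y ^ 100) ≤ Q') :
    |∑ n ∈ Icc 1 Q', LSP.CY P θ a n * (LSPO.tau ((n : ℤ) - g * N).natAbs *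
      (G ((g : ℝ) * N / n) - LSPO.KK G (Y ^ 600)⁻¹ ((g : ℝ) * N / n)))| ≤ (Y ^ 590)⁻¹ := by
  have hY := h.Y0
  have hY1 := h.Y1
  have hY2 := h.Y2
  have hx0 := h.x0
  have hU := h.ok.one_le
  have hU1 := h.U1
  have hc := h.ok.one_le'
  have hN0 : (0 : ℝ) < N := by
    have := h.N1
    linarith
  have hgR : (1 : ℝ) ≤ |(g : ℝ)| := by
    have : 1 ≤ |g| := Int.one_le_abs hg
    exact_mod_cast this
  set F : ℕ → ℝ := fun n => LSPO.tau ((n : ℤ) - g * N).natAbs *
      (G ((g : ℝ) * N / n) - LSPO.KK G (Y ^ 600)⁻¹ ((g : ℝ) * N / n)) with hF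
  have hP1 : ∀ p ∈ P, 1 ≤ p := fun p hp => (h.pr p hp).1.one_lt.le
  set B : ℝ := 4 * (x * Y ^ 100) with hB
  have hB1 : 1 ≤ B := by
    have e1 : 1 ≤ Y ^ 100 := one_le_pow₀ hY1
    have e2 : 1 ≤ x * Y ^ 100 := one_le_mul_of_one_le_of_one_le h.x1 e1
    linarith
  have hB0 : 0 < B := by linarith
  have hBx : B ≤ x ^ 2 := by
    have e1 : 4 * Y ^ 100 ≤ x := by
      calc 4 * Y ^ 100 ≤ Y * Y ^ 100 := by
            refine mul_le_mul_of_nonneg_right ?_ (by positivity)
            linarith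
        _ = Y ^ 101 := by ring
        _ ≤ x := h.pwx (by norm_num)
    calc B = x * (4 * Y ^ 100) := by rw [hB]; ring
      _ ≤ x * x := mul_le_mul_of_nonneg_left e1 hx0.le
      _ = x ^ 2 := by ring
  have hpQ : ∀ p ∈ P, ((p * Q : ℕ) : ℝ) ≤ B := by
    intro p hp
    push_cast
    exact h.pm hp le_rfl
  have hQ1 : ∀ p ∈ P, p * Q ≤ Q' := by
    intro p hp
    have := (hpQ p hp).trans hQ'
    exact_mod_cast this
  have hQ2 : ∀ p ∈ P, p * Q ≤ ⌊B⌋₊ := fun p hp => Nat.le_floor (hpQ p hp)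
  have e0 := cy_sum hP1 θ a h.sp hQ1 F
  have e1 : (∑ n ∈ Icc 1 Q', LSP.CY P θ a n * (LSPO.tau ((n : ℤ) - g * N).natAbs *
      (G ((g : ℝ) * N / n) - LSPO.KK G (Y ^ 600)⁻¹ ((g : ℝ) * N / n)))) =
      ∑ n ∈ Icc 1 Q', LSP.CY P θ a n * F n := rfl
  rw [e1, e0]
  have e2 : |∑ p ∈ P, ∑ m ∈ Icc 1 Q, θ p / p * a m * F (p * m)| ≤
      ∑ p ∈ P, ∑ m ∈ Icc 1 Q, |θ p / p * a m| * |F (p * m)| := by
    refine (abs_sum_le_sum_abs _ _).trans (sum_le_sum fun p _ => ?_)
    refine (abs_sum_le_sum_abs _ _).trans (sum_le_sum fun m _ => ?_)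
    rw [abs_mul]
  refine e2.trans ?_
  refine (cy_abs hP1 hY.le h.th h.bd h.sp hQ2 (F := fun n => |F n|)
    (fun n => abs_nonneg _)).trans ?_
  -- the pointwise bound
  set De : ℝ := (Y ^ 600)⁻¹ with hDe
  have hDe0 : 0 < De := by positivity
  have hDe1 : De ≤ 1 / 12 := by
    rw [hDe, inv_eq_one_div]
    refine one_div_le_one_div_of_le (by norm_num) ?_
    have : (6000 : ℝ) ≤ Y ^ 600 := hY2.trans (le_self_pow₀ hY1 (by norm_num))
    linarith
  have key : ∀ n ∈ Icc 1 ⌊B⌋₊, Y * LSPO.tau n / n * |F n| ≤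
      if |1 - (g : ℝ) * N / n| ≤ 3 * De then Y ^ 4 * (1 / (n : ℝ)) else 0 := by
    intro n hn
    rw [mem_Icc] at hn
    have hn0 : (0 : ℝ) < n := by exact_mod_cast hn.1
    have hn1 : (1 : ℝ) ≤ n := by exact_mod_cast hn.1
    have hnB : (n : ℝ) ≤ B := (Nat.le_floor_iff hB0.le).1 hn.2
    have hpos : 0 ≤ Y ^ 4 * (1 / (n : ℝ)) := by positivity
    by_cases hu : 2 * De ≤ |1 - (g : ℝ) * N / n|
    · have : F n = 0 := by
        rw [hF]
        simp only
        unfold LSPO.KK
        rw [LSPO.cl_eq_one hDe0 hu, mul_one, sub_self, mul_zero]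
      rw [this, abs_zero, mul_zero]
      split_ifs
      · exact hpos
      · exact le_rfl
    push Not at hu
    rw [if_pos (by linarith)]
    by_cases hk : ((n : ℤ) - g * N) = 0
    · have : F n = 0 := by
        rw [hF]
        simp only
        rw [hk, Int.natAbs_zero]
        unfold LSPO.tau
        rw [Nat.divisors_zero, card_empty, Nat.cast_zero, zero_mul]
      rw [this, abs_zero, mul_zero]
      exact hpos
    have hk1 : 1 ≤ ((n : ℤ) - g * N).natAbs := Int.natAbs_pos.2 hk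
    have hkR : ((((n : ℤ) - g * N).natAbs : ℕ) : ℝ) = |(n : ℝ) - g * N| := by
      rw [Nat.cast_natAbs]; push_cast; rfl
    have hkR1 : 1 ≤ |(n : ℝ) - g * N| := by
      rw [← hkR]
      exact_mod_cast hk1
    have hku : |(n : ℝ) - g * N| = n * |1 - (g : ℝ) * N / n| := by
      have f1 : (n : ℝ) - g * N = n * (1 - (g : ℝ) * N / n) := by field_simp
      rw [f1, abs_mul, abs_of_pos hn0]
    have hk2 : |(n : ℝ) - g * N| ≤ x ^ 2 := by
      rw [hku]
      calc (n : ℝ) * |1 - (g : ℝ) * N / n| ≤ n * 1 :=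
            mul_le_mul_of_nonneg_left (by linarith) hn0.le
        _ ≤ B := by rw [mul_one]; exact hnB
        _ ≤ x ^ 2 := hBx
    have ht1 : LSPO.tau ((n : ℤ) - g * N).natAbs ≤ Y := h.ta _ hk1 (by rw [hkR]; exact hk2)
    have ht2 : LSPO.tau n ≤ Y := h.ta n hn.1 (hnB.trans hBx)
    have ht0 : ∀ k : ℕ, 0 ≤ LSPO.tau k := fun k => by unfold LSPO.tau; positivity
    have hu1 : 1 / B ≤ |1 - (g : ℝ) * N / n| := by
      rw [div_le_iff₀ hB0]
      calc (1 : ℝ) ≤ |(n : ℝ) - g * N| := hkR1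
        _ = n * |1 - (g : ℝ) * N / n| := hku
        _ ≤ B * |1 - (g : ℝ) * N / n| := mul_le_mul_of_nonneg_right hnB (abs_nonneg _)
        _ = _ := mul_comm _ _
    have hu2 : 1 / 2 ≤ |(g : ℝ) * N / n| := by
      have f1 : 1 - |(g : ℝ) * N / n| ≤ |1 - (g : ℝ) * N / n| := by
        have := abs_sub_abs_le_abs_sub (1 : ℝ) ((g : ℝ) * N / n)
        rw [abs_one] at this
        exact this
      linarith
    have hG := LSPO.G_bound h.ok (a := 1 / 2) (om := 1 / B) (by norm_num) (by norm_num)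
      (by positivity) (by rw [div_le_one hB0]; exact hB1) hu2 hu1
    have hG2 : |G ((g : ℝ) * N / n)| ≤ Y := by
      refine hG.trans ?_
      have f1 : -Real.log (1 / 2) ≤ 1 := by
        rw [Real.log_div one_ne_zero two_ne_zero, Real.log_one]
        have := Real.log_two_lt_d9
        linarith
      have f2 : -Real.log (1 / B) ≤ 2 + 2 * Real.log x := by
        rw [Real.log_div one_ne_zero hB0.ne', Real.log_one, hB,
          Real.log_mul (by norm_num) (by positivity), Real.log_mul hx0.ne' (by positivity),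
          Real.log_pow]
        have g1 := h.lY
        have g0 := h.lY0
        have g2 : Real.log 4 ≤ 2 := by
          rw [show (4 : ℝ) = 2 ^ 2 by norm_num, Real.log_pow]
          have := Real.log_two_lt_d9
          push_cast
          linarith
        push_cast
        linarith
      have f3 : Real.log (1 + U) ≤ U := by
        have := Real.log_le_sub_one_of_pos (show 0 < 1 + U by linarith)
        linarith
      have f4 := h.logx
      have f5 : 1 - Real.log (1 / 2) - Real.log (1 / B) + 2 * Real.log (1 + U) ≤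
          4 + 2 * Real.log x + 2 * U := by linarith
      calc c * (1 - Real.log (1 / 2) - Real.log (1 / B) + 2 * Real.log (1 + U))
          ≤ c * (4 + 2 * Real.log x + 2 * U) := mul_le_mul_of_nonneg_left f5 (by linarith)
        _ ≤ 1000 * c * (Real.log x + U + 2) ^ 2 := by
            have f6 : 4 + 2 * Real.log x + 2 * U ≤ 1000 * (Real.log x + U + 2) ^ 2 := by
              nlinarith
            calc c * (4 + 2 * Real.log x + 2 * U) ≤ c * (1000 * (Real.log x + U + 2) ^ 2) :=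
                  mul_le_mul_of_nonneg_left f6 (by linarith)
              _ = _ := by ring
        _ ≤ Y := h.hY
    have hF1 : |F n| ≤ Y * Y := by
      rw [hF]
      simp only
      rw [abs_mul, abs_of_nonneg (ht0 _)]
      refine mul_le_mul ht1 ?_ (abs_nonneg _) hY.le
      have f1 : G ((g : ℝ) * N / n) - LSPO.KK G De ((g : ℝ) * N / n) =
          G ((g : ℝ) * N / n) * (1 - LSPO.cl De ((g : ℝ) * N / n)) := by
        unfold LSPO.KK
        ring
      rw [f1, abs_mul]
      have f2 := LSPO.cl_nonneg De ((g : ℝ) * N / n)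
      have f3 := LSPO.cl_le_one De ((g : ℝ) * N / n)
      calc |G ((g : ℝ) * N / n)| * |1 - LSPO.cl De ((g : ℝ) * N / n)|
          ≤ Y * 1 := by
            refine mul_le_mul hG2 ?_ (abs_nonneg _) hY.le
            rw [abs_le]
            constructor <;> linarith
        _ = Y := mul_one _
    calc Y * LSPO.tau n / n * |F n| ≤ Y * Y / n * (Y * Y) := by
          refine mul_le_mul ?_ hF1 (abs_nonneg _) (by positivity)
          refine div_le_div_of_nonneg_right ?_ hn0.le
          exact mul_le_mul_of_nonneg_left ht2 hY.le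
      _ = Y ^ 4 * (1 / (n : ℝ)) := by ring
  refine (sum_le_sum key).trans ?_
  rw [← sum_filter, ← mul_sum]
  have ht : 1 ≤ De * |(g : ℝ) * N| := by
    have f1 : x / 4 ≤ |(g : ℝ) * N| := by
      rw [abs_mul, abs_of_pos hN0]
      have := h.N1
      nlinarith
    have f2 : 4 * Y ^ 600 ≤ x := by
      calc 4 * Y ^ 600 ≤ Y * Y ^ 600 := by
            refine mul_le_mul_of_nonneg_right ?_ (by positivity)
            linarith
        _ = Y ^ 601 := by ring
        _ ≤ x := h.pwx (by norm_num)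
    rw [hDe, inv_mul_eq_div, le_div_iff₀ (by positivity)]
    linarith
  have hns := near_sum hDe0 hDe1 ht ⌊B⌋₊
  calc Y ^ 4 * ∑ n ∈ (Icc 1 ⌊B⌋₊).filter (fun n : ℕ => |1 - (g : ℝ) * N / n| ≤ 3 * De),
        1 / (n : ℝ) ≤ Y ^ 4 * (12 * De) := mul_le_mul_of_nonneg_left hns (by positivity)
    _ ≤ (Y ^ 590)⁻¹ := by
        rw [hDe]
        have f1 : Y ^ 4 * (12 * (Y ^ 600)⁻¹) = 12 / Y ^ 596 := by
          rw [show Y ^ 600 = Y ^ 4 * Y ^ 596 by ring]
          field_simp
        rw [f1, inv_eq_one_div, div_le_div_iff₀ (by positivity) (by positivity), one_mul]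
        calc 12 * Y ^ 590 ≤ Y * Y ^ 590 := by
              refine mul_le_mul_of_nonneg_right ?_ (by positivity)
              linarith
          _ = Y ^ 591 := by ring
          _ ≤ Y ^ 596 := h.pw (by norm_num)

end Pool.Agent.LSPO2
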